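import Pool.Agent.Helper32.FJLB.Count

set_option autoImplicit false

namespace Pool.Agent.FJLB

open Finset

variable {d k N : ℕ}

/-- `p` computes the matrix `A`. -/
def Prog.Computes (p : Prog d k N) (A : Fin k → Fin d → ℝ) : Prop :=
  ∀ (x : Fin d → ℝ) (i : Fin k), Sum.elim x (p.val x) (p.out i) = ∑ j, A i j * x j

/-- Killing one product changes the image of every unit vector by at most `Λ`. -/
def Prog.Stable (p : Prog d k N) (Λ : ℝ) : Prop :=
  ∀ (s : Fin N) (b : Bool) (j : Fin d),
    ∑ i, (Sum.elim (Pi.single j 1) (p.val (Pi.single j 1)) (p.out i) -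
      Sum.elim (Pi.single j 1) ((p.kill s b).val (Pi.single j 1)) (p.out i)) ^ 2 ≤ Λ ^ 2

theorem few_bad (A : Fin k → Fin d → ℝ) (t : ℕ) (ht : 1 ≤ t) (c : ℝ)
    (hflat : ∀ f : Fin t → Fin d, Function.Injective f → ∀ s : Fin t → ℝ,
      (∀ l, s l = 1 ∨ s l = -1) → ∑ i, (∑ l, s l * A i (f l)) ^ 2 ≤ c ^ 2 * t)
    (v : Fin k → ℝ) (B : Finset (Fin d))
    (hB : ∀ j ∈ B, c ^ 2 / t * ∑ i, v i ^ 2 < (∑ i, A i j * v i) ^ 2) : B.card < t := by
  by_contra hcon
  push Not at hcon
  have ht0 : (0 : ℝ) < t := by exact_mod_cast ht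
  obtain ⟨f, hf, hinj⟩ : ∃ f : Fin t → Fin d, (∀ l, f l ∈ B) ∧ Function.Injective f := by
    have h1 : Fintype.card (Fin t) ≤ Fintype.card B := by simpa using hcon
    obtain ⟨g⟩ := Function.Embedding.nonempty_of_card_le h1
    exact ⟨fun l => (g l : Fin d), fun l => (g l).2, fun a b h => g.injective (Subtype.ext h)⟩
  set y : Fin t → ℝ := fun l => ∑ i, A i (f l) * v i with hy
  set V : ℝ := ∑ i, v i ^ 2 with hV
  have hV0 : 0 ≤ V := sum_nonneg fun _ _ => sq_nonneg _
  set s : Fin t → ℝ := fun l => if 0 ≤ y l then 1 else -1 with hs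
  have hs1 : ∀ l, s l = 1 ∨ s l = -1 := by
    intro l
    simp only [hs]
    split_ifs <;> simp
  have hsy : ∀ l, s l * y l = |y l| := by
    intro l
    simp only [hs]
    split_ifs with h
    · rw [abs_of_nonneg h, one_mul]
    · rw [abs_of_neg (not_le.mp h)]
      ring
  have h1 := hflat f hinj s hs1
  have h2 : (∑ l, |y l|) ^ 2 ≤ c ^ 2 * t * V := by
    have h3 : ∑ l, |y l| = ∑ i, (∑ l, s l * A i (f l)) * v i := by
      simp_rw [← hsy, hy, mul_sum, sum_mul]
      rw [sum_comm]
      apply sum_congr rfl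
      intro i _
      apply sum_congr rfl
      intro l _
      ring
    rw [h3]
    refine (sum_mul_sq_le_sq_mul_sq _ _ _).trans ?_
    exact mul_le_mul_of_nonneg_right h1 hV0
  have h4 : ∀ l, Real.sqrt (c ^ 2 / t * V) < |y l| := by
    intro l
    have := hB (f l) (hf l)
    rw [← Real.sqrt_sq_eq_abs]
    exact Real.sqrt_lt_sqrt (by positivity) this
  have h5 : (t : ℝ) * Real.sqrt (c ^ 2 / t * V) < ∑ l, |y l| := by
    have : ∑ _l : Fin t, Real.sqrt (c ^ 2 / t * V) < ∑ l, |y l| := by
      apply sum_lt_sum_of_nonempty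
      · exact ⟨⟨0, ht⟩, mem_univ _⟩
      · intro l _
        exact h4 l
    simpa using this
  have h6 : ((t : ℝ) * Real.sqrt (c ^ 2 / t * V)) ^ 2 < (∑ l, |y l|) ^ 2 := by
    apply pow_lt_pow_left₀ h5 (by positivity) (by norm_num)
  rw [mul_pow, Real.sq_sqrt (by positivity)] at h6
  have h7 : (t : ℝ) ^ 2 * (c ^ 2 / t * V) = c ^ 2 * t * V := by
    field_simp
  linarith

set_option maxHeartbeats 1000000 in
/-- **Deterministic bound.** -/
theorem det_bound (p : Prog d k N) (A : Fin k → Fin d → ℝ) (hA : p.Computes A) (L Λ : ℝ)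
    (hL : 1 ≤ L) (hΛ : 0 ≤ Λ) (hk : 1 ≤ k) (t : ℕ) (ht : 72 ≤ t)
    (hd : 18 * k * L * t ≤ d)
    (hact : ∀ T : Finset (Fin d), T.card ≤ k → (p.active T : ℝ) ≤ 2 * k * L)
    (hst : p.Stable Λ)
    (hflat : ∀ f : Fin t → Fin d, Function.Injective f → ∀ s : Fin t → ℝ,
      (∀ l, s l = 1 ∨ s l = -1) → ∑ i, (∑ l, s l * A i (f l)) ^ 2 ≤ (3 / 2) ^ 2 * t)
    (hcol : ∀ j, 1 / 4 ≤ ∑ i, A i j ^ 2) : Real.sqrt t ≤ 384 * (L * Λ) := by
  classical
  have ht1 : 1 ≤ t := by omega
  have ht0 : (0 : ℝ) < t := by exact_mod_cast ht1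
  have ht72 : (72 : ℝ) ≤ t := by exact_mod_cast ht
  have hk0 : (1 : ℝ) ≤ k := by exact_mod_cast hk
  have hkLt : (k : ℝ) * 1 ≤ k * (L * t) := by
    apply mul_le_mul_of_nonneg_left _ (by linarith)
    nlinarith
  have hkd' : (k : ℝ) < d := by nlinarith
  have hkd : k < d := by exact_mod_cast hkd'
  have hd0 : (0 : ℝ) < d := by linarith
  obtain ⟨hcF, hsF⟩ := p.counting L hk hkd hact
  obtain ⟨W, hW1, hW2, hW3⟩ := p.decomposition p.Heavy p.heavy_closed
  set F := p.frontier p.Heavy with hF
  -- columns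
  have hAj : ∀ i j, Sum.elim (Pi.single j 1) (p.val (Pi.single j 1)) (p.out i) = A i j := by
    intro i j
    rw [hA]
    simp [Pi.single_apply]
  set φ : Fin N × Bool → Fin d → ℝ := fun e j =>
    Sum.elim (Pi.single j 1) (p.val (Pi.single j 1)) (p.src e.1 e.2) with hφ
  -- sets of bad columns
  set G1 : Finset (Fin d) := univ.filter fun j =>
    32 * L < ((F.filter fun e => p.ReachSrc j (p.src e.1 e.2)).card : ℝ) with hG1
  set G2 : Finset (Fin d) := univ.filter fun j =>
    4 < (univ.filter fun i => LightSrc p.Heavy (p.out i) ∧ p.ReachSrc j (p.out i)).card with hG2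
  set G3 : Fin N × Bool → Finset (Fin d) := fun e => univ.filter fun j =>
    (3 / 2) ^ 2 / t * ∑ i, W e i ^ 2 < (∑ i, A i j * W e i) ^ 2 with hG3
  set G4 : Fin k → Finset (Fin d) := fun i' => univ.filter fun j =>
    (3 / 2) ^ 2 / t * ∑ i, (Pi.single i' (1 : ℝ) : Fin k → ℝ) i ^ 2 <
      (∑ i, A i j * (Pi.single i' (1 : ℝ) : Fin k → ℝ) i) ^ 2 with hG4
  have c1 : (G1.card : ℝ) ≤ d / 4 := by
    have h1 : (G1.card : ℝ) * (32 * L) ≤ 8 * d * L := by
      refine le_trans ?_ hsF
      have h2 : ∑ e ∈ F, ((p.depSrc (p.src e.1 e.2)).card : ℝ) =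
          ∑ j : Fin d, ((F.filter fun e => p.ReachSrc j (p.src e.1 e.2)).card : ℝ) := by
        unfold Prog.depSrc
        simp only [card_filter]
        push_cast
        rw [sum_comm]
      rw [h2]
      calc (G1.card : ℝ) * (32 * L) = ∑ _j ∈ G1, 32 * L := by
            rw [sum_const, nsmul_eq_mul]
        _ ≤ ∑ j ∈ G1, ((F.filter fun e => p.ReachSrc j (p.src e.1 e.2)).card : ℝ) := by
            apply sum_le_sum
            intro j hj
            simp only [hG1, mem_filter, mem_univ, true_and] at hj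
            exact hj.le
        _ ≤ ∑ j : Fin d, ((F.filter fun e => p.ReachSrc j (p.src e.1 e.2)).card : ℝ) := by
            apply sum_le_sum_of_subset_of_nonneg (subset_univ _)
            intro _ _ _
            positivity
    have hL0 : 0 < L := by linarith
    have h3 : (G1.card : ℝ) * (32 * L) ≤ (d / 4) * (32 * L) := by
      refine h1.trans (le_of_eq ?_)
      ring
    exact le_of_mul_le_mul_right h3 (by linarith)
  have c2 : (G2.card : ℝ) ≤ d / 5 := by
    have h1 : ∑ j : Fin d, ((univ.filter fun i => LightSrc p.Heavy (p.out i) ∧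
        p.ReachSrc j (p.out i)).card : ℝ) ≤ d := by
      have h2 : ∑ j : Fin d, ((univ.filter fun i => LightSrc p.Heavy (p.out i) ∧
          p.ReachSrc j (p.out i)).card : ℝ) =
          ∑ i ∈ univ.filter (fun i => LightSrc p.Heavy (p.out i)),
            ((p.depSrc (p.out i)).card : ℝ) := by
        unfold Prog.depSrc
        simp only [card_filter]
        push_cast
        rw [sum_comm, sum_filter]
        apply sum_congr rfl
        intro i _
        by_cases hl : LightSrc p.Heavy (p.out i)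
        · simp [hl]
        · simp [hl]
      rw [h2]
      have h3 : ∑ i ∈ univ.filter (fun i => LightSrc p.Heavy (p.out i)),
            ((p.depSrc (p.out i)).card : ℝ) ≤
          ∑ i ∈ univ.filter (fun i => LightSrc p.Heavy (p.out i)), (d / k : ℝ) := by
        apply sum_le_sum
        intro i hi
        simp only [mem_filter, mem_univ, true_and] at hi
        have h4 := p.light_card hkd _ hi
        rw [le_div_iff₀ (by linarith)]
        have h5 : ((k * (p.depSrc (p.out i)).card : ℕ) : ℝ) ≤ d := by exact_mod_cast h4.le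
        push_cast at h5
        linarith
      refine h3.trans ?_
      rw [sum_const, nsmul_eq_mul]
      have h6 : ((univ.filter fun i => LightSrc p.Heavy (p.out i)).card : ℝ) ≤ k := by
        have := card_le_univ (univ.filter fun i => LightSrc p.Heavy (p.out i))
        rw [Fintype.card_fin] at this
        exact_mod_cast this
      calc ((univ.filter fun i => LightSrc p.Heavy (p.out i)).card : ℝ) * (d / k) ≤
          k * (d / k) := mul_le_mul_of_nonneg_right h6 (by positivity)
        _ = d := by field_simp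
    have h2 : (G2.card : ℝ) * 5 ≤ d := by
      refine le_trans ?_ h1
      calc (G2.card : ℝ) * 5 = ∑ _j ∈ G2, (5 : ℝ) := by rw [sum_const, nsmul_eq_mul]
        _ ≤ ∑ j ∈ G2, ((univ.filter fun i => LightSrc p.Heavy (p.out i) ∧
            p.ReachSrc j (p.out i)).card : ℝ) := by
            apply sum_le_sum
            intro j hj
            simp only [hG2, mem_filter, mem_univ, true_and] at hj
            have : 5 ≤ (univ.filter fun i => LightSrc p.Heavy (p.out i) ∧
              p.ReachSrc j (p.out i)).card := hj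
            exact_mod_cast this
        _ ≤ _ := by
            apply sum_le_sum_of_subset_of_nonneg (subset_univ _)
            intro _ _ _
            positivity
    linarith
  have c3 : ∀ e, ((G3 e).card : ℝ) ≤ t := by
    intro e
    have := few_bad A t ht1 (3 / 2) hflat (W e) (G3 e) (by
      intro j hj
      simp only [hG3, mem_filter, mem_univ, true_and] at hj
      exact hj)
    exact_mod_cast this.le
  have c4 : ∀ i, ((G4 i).card : ℝ) ≤ t := by
    intro i
    have := few_bad A t ht1 (3 / 2) hflat (Pi.single i 1) (G4 i) (by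
      intro j hj
      simp only [hG4, mem_filter, mem_univ, true_and] at hj
      exact hj)
    exact_mod_cast this.le
  -- a good column
  obtain ⟨j, hj⟩ : ∃ j : Fin d, j ∉ G1 ∪ (G2 ∪ (F.biUnion G3 ∪ univ.biUnion G4)) := by
    by_contra hcon
    push Not at hcon
    have h1 : (univ : Finset (Fin d)) ⊆ G1 ∪ (G2 ∪ (F.biUnion G3 ∪ univ.biUnion G4)) :=
      fun j _ => hcon j
    have h2 := card_le_card h1
    rw [card_univ, Fintype.card_fin] at h2
    have h3 : ((G1 ∪ (G2 ∪ (F.biUnion G3 ∪ univ.biUnion G4))).card : ℝ) ≤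
        G1.card + (G2.card + ((F.biUnion G3).card + (univ.biUnion G4).card)) := by
      exact_mod_cast (card_union_le _ _).trans (Nat.add_le_add_left ((card_union_le _ _).trans
        (Nat.add_le_add_left (card_union_le _ _) _)) _)
    have h4 : ((F.biUnion G3).card : ℝ) ≤ F.card * t := by
      calc ((F.biUnion G3).card : ℝ) ≤ ∑ e ∈ F, ((G3 e).card : ℝ) := by
            exact_mod_cast card_biUnion_le
        _ ≤ ∑ _e ∈ F, (t : ℝ) := sum_le_sum fun e _ => c3 e
        _ = F.card * t := by rw [sum_const, nsmul_eq_mul]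
    have h5 : ((univ.biUnion G4).card : ℝ) ≤ k * t := by
      calc ((univ.biUnion G4).card : ℝ) ≤ ∑ i, ((G4 i).card : ℝ) := by
            exact_mod_cast card_biUnion_le
        _ ≤ ∑ _i : Fin k, (t : ℝ) := sum_le_sum fun i _ => c4 i
        _ = k * t := by rw [sum_const, nsmul_eq_mul, card_univ, Fintype.card_fin]
    have h6 : (F.card : ℝ) * t ≤ 8 * k * L * t := mul_le_mul_of_nonneg_right hcF ht0.le
    have h7 : (k : ℝ) * t ≤ k * L * t := by
      apply mul_le_mul_of_nonneg_right _ ht0.le
      nlinarith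
    have h8 : (d : ℝ) ≤ ((G1 ∪ (G2 ∪ (F.biUnion G3 ∪ univ.biUnion G4))).card : ℝ) := by
      exact_mod_cast h2
    nlinarith
  simp only [mem_union, mem_biUnion, mem_univ, true_and, not_or, not_exists, not_and] at hj
  obtain ⟨hj1, hj2, hj3, hj4⟩ := hj
  simp only [hG1, mem_filter, mem_univ, true_and, not_lt] at hj1
  simp only [hG2, mem_filter, mem_univ, true_and, not_lt] at hj2
  -- splitting the squared norm of the column
  have hsplit : ∑ i, A i j ^ 2 =
      ∑ i ∈ univ.filter (fun i => LightSrc p.Heavy (p.out i)), A i j ^ 2 +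
      ∑ e ∈ F, φ e j * ∑ i, A i j * W e i := by
    rw [← sum_filter_add_sum_filter_not univ (fun i => LightSrc p.Heavy (p.out i))]
    congr 1
    have h1 : ∀ i ∈ univ.filter (fun i => ¬ LightSrc p.Heavy (p.out i)),
        A i j ^ 2 = ∑ e ∈ F, φ e j * (A i j * W e i) := by
      intro i hi
      simp only [mem_filter, mem_univ, true_and] at hi
      have h2 := hW2 i hi (Pi.single j 1)
      rw [hAj] at h2
      calc A i j ^ 2 = A i j * A i j := sq _
        _ = A i j * ∑ e ∈ F, W e i * Sum.elim (Pi.single j 1) (p.val (Pi.single j 1))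
            (p.src e.1 e.2) := by rw [← h2]
        _ = ∑ e ∈ F, φ e j * (A i j * W e i) := by
            rw [mul_sum]
            apply sum_congr rfl
            intro e _
            simp only [hφ]
            ring
    rw [sum_congr rfl h1, sum_comm]
    apply sum_congr rfl
    intro e _
    rw [← mul_sum]
    congr 1
    rw [sum_filter]
    apply sum_congr rfl
    intro i _
    by_cases h2 : LightSrc p.Heavy (p.out i)
    · rw [if_neg (not_not.mpr h2), hW1 i h2 e, mul_zero]
    · rw [if_pos h2]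
  -- light outputs
  have hlight : ∑ i ∈ univ.filter (fun i => LightSrc p.Heavy (p.out i)), A i j ^ 2 ≤
      4 * ((3 / 2) ^ 2 / t) := by
    have h1 : ∑ i ∈ univ.filter (fun i => LightSrc p.Heavy (p.out i)), A i j ^ 2 =
        ∑ i ∈ univ.filter (fun i => LightSrc p.Heavy (p.out i) ∧ p.ReachSrc j (p.out i)),
          A i j ^ 2 := by
      rw [← filter_filter]
      symm
      apply sum_filter_of_ne
      intro i _ hne
      by_contra hr
      apply hne
      rw [← hAj i j, p.src_eq_zero j _ hr]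
      norm_num
    rw [h1]
    calc ∑ i ∈ univ.filter (fun i => LightSrc p.Heavy (p.out i) ∧ p.ReachSrc j (p.out i)),
          A i j ^ 2 ≤ ∑ _i ∈ univ.filter (fun i => LightSrc p.Heavy (p.out i) ∧
            p.ReachSrc j (p.out i)), (3 / 2) ^ 2 / (t : ℝ) := by
          apply sum_le_sum
          intro i _
          have h2 := hj4 i
          simp only [hG4, mem_filter, mem_univ, true_and, not_lt] at h2
          have h3 : ∑ i', A i' j * (Pi.single i (1 : ℝ) : Fin k → ℝ) i' = A i j := by
            simp [Pi.single_apply]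
          have h4 : ∑ i', (Pi.single i (1 : ℝ) : Fin k → ℝ) i' ^ 2 = 1 := by
            simp [Pi.single_apply]
          rw [h3, h4, mul_one] at h2
          exact h2
      _ = ((univ.filter fun i => LightSrc p.Heavy (p.out i) ∧
            p.ReachSrc j (p.out i)).card : ℝ) * ((3 / 2) ^ 2 / (t : ℝ)) := by
          rw [sum_const, nsmul_eq_mul]
      _ ≤ 4 * ((3 / 2) ^ 2 / (t : ℝ)) := by
          apply mul_le_mul_of_nonneg_right _ (by positivity)
          exact_mod_cast hj2
  -- frontier terms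
  have hst' : 0 < Real.sqrt t := Real.sqrt_pos.mpr ht0
  have hterm : ∀ e ∈ F, φ e j * ∑ i, A i j * W e i ≤ (3 / 2) * Λ / Real.sqrt t := by
    intro e he
    have h1 := hj3 e he
    simp only [hG3, mem_filter, mem_univ, true_and, not_lt] at h1
    have h2 : (φ e j) ^ 2 * ∑ i, W e i ^ 2 ≤ Λ ^ 2 := by
      have h3 := hst e.1 e.2 j
      rw [mul_sum]
      refine le_trans (le_of_eq ?_) h3
      apply sum_congr rfl
      intro i _
      rw [hW3 e he i (Pi.single j 1)]
      simp only [hφ]
      ring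
    have h4 : (φ e j * ∑ i, A i j * W e i) ^ 2 ≤ ((3 / 2) * Λ / Real.sqrt t) ^ 2 := by
      rw [mul_pow, div_pow, Real.sq_sqrt ht0.le]
      calc (φ e j) ^ 2 * (∑ i, A i j * W e i) ^ 2 ≤
          (φ e j) ^ 2 * ((3 / 2) ^ 2 / t * ∑ i, W e i ^ 2) :=
            mul_le_mul_of_nonneg_left h1 (sq_nonneg _)
        _ = (3 / 2) ^ 2 / t * ((φ e j) ^ 2 * ∑ i, W e i ^ 2) := by ring
        _ ≤ (3 / 2) ^ 2 / t * Λ ^ 2 := mul_le_mul_of_nonneg_left h2 (by positivity)
        _ = (3 / 2 * Λ) ^ 2 / t := by ring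
    exact (le_abs_self _).trans (abs_le_of_sq_le_sq h4 (by positivity))
  have hfr : ∑ e ∈ F, φ e j * ∑ i, A i j * W e i ≤ 32 * L * ((3 / 2) * Λ / Real.sqrt t) := by
    have h1 : ∑ e ∈ F, φ e j * ∑ i, A i j * W e i =
        ∑ e ∈ F.filter (fun e => p.ReachSrc j (p.src e.1 e.2)),
          φ e j * ∑ i, A i j * W e i := by
      symm
      apply sum_filter_of_ne
      intro e _ hne
      by_contra hr
      apply hne
      simp only [hφ]
      rw [p.src_eq_zero j _ hr, zero_mul]
    rw [h1]
    calc ∑ e ∈ F.filter (fun e => p.ReachSrc j (p.src e.1 e.2)), φ e j * ∑ i, A i j * W e i ≤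
        ∑ _e ∈ F.filter (fun e => p.ReachSrc j (p.src e.1 e.2)), (3 / 2) * Λ / Real.sqrt t := by
          apply sum_le_sum
          intro e he
          exact hterm e (mem_filter.mp he).1
      _ = ((F.filter fun e => p.ReachSrc j (p.src e.1 e.2)).card : ℝ) *
          ((3 / 2) * Λ / Real.sqrt t) := by rw [sum_const, nsmul_eq_mul]
      _ ≤ 32 * L * ((3 / 2) * Λ / Real.sqrt t) := by
          apply mul_le_mul_of_nonneg_right hj1 (by positivity)
  have hfin := hcol j
  rw [hsplit] at hfin
  have h9 : 4 * ((3 / 2) ^ 2 / (t : ℝ)) ≤ 1 / 8 := by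
    rw [← mul_div_assoc, div_le_iff₀ ht0]
    linarith
  have h10 : 1 / 8 ≤ 32 * L * ((3 / 2) * Λ / Real.sqrt t) := by linarith
  have h11 : 32 * L * ((3 / 2) * Λ / Real.sqrt t) = 48 * (L * Λ) / Real.sqrt t := by ring
  rw [h11, le_div_iff₀ hst'] at h10
  linarith

end Pool.Agent.FJLB
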