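import Pool.Agent.Helper32.FJLB.Prog

set_option autoImplicit false

namespace Pool.Agent.FJLB

open Finset

variable {d k N : ℕ}

/-- `1 - (1-q)^k ≥ min(1, k q)/2`. -/
theorem one_sub_pow_ge (k : ℕ) (q : ℝ) (hq0 : 0 ≤ q) (hq1 : q ≤ 1) :
    min 1 (k * q) / 2 ≤ 1 - (1 - q) ^ k := by
  have h1 : (1 - q) ^ k ≤ Real.exp (-(k * q)) := by
    have h2 : 1 - q ≤ Real.exp (-q) := by
      have := Real.add_one_le_exp (-q)
      linarith
    calc (1 - q) ^ k ≤ Real.exp (-q) ^ k := pow_le_pow_left₀ (by linarith) h2 k
      _ = Real.exp (-(k * q)) := by rw [← Real.exp_nat_mul]; ring_nf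
  have hkq : 0 ≤ (k : ℝ) * q := by positivity
  rcases le_total 1 ((k : ℝ) * q) with h | h
  · rw [min_eq_left h]
    have h3 : Real.exp (-(k * q)) ≤ Real.exp (-1) := Real.exp_le_exp.mpr (by linarith)
    have h4 : Real.exp (-1) ≤ 1 / 2 := by
      rw [Real.exp_neg, one_div]
      apply inv_anti₀ (by norm_num)
      have := Real.add_one_le_exp (1 : ℝ)
      linarith
    linarith
  · rw [min_eq_right h]
    set z := (k : ℝ) * q with hz
    have h5 : Real.exp (-z) ≤ 1 - z / 2 := by
      have h6 : Real.exp (-z) = 1 / Real.exp z := by rw [Real.exp_neg, one_div]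
      rw [h6, div_le_iff₀ (Real.exp_pos _)]
      have h7 := Real.add_one_le_exp z
      nlinarith
    linarith

/-- Double counting: if every `k`-tuple hits at most `B` of the sets, then
`∑ min(1, k |D a| / d) ≤ 2 B`. -/
theorem hit_sum {α : Type} [Fintype α] (hd : 1 ≤ d) (D : α → Finset (Fin d)) (B : ℝ)
    (h : ∀ τ : Fin k → Fin d, by
      classical exact ((univ.filter fun a => ∃ i, τ i ∈ D a).card : ℝ) ≤ B) :
    ∑ a, min 1 ((k : ℝ) * ((D a).card / d)) ≤ 2 * B := by
  classical
  have hd0 : (0 : ℝ) < d := by exact_mod_cast hd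
  -- number of tuples avoiding a set
  have havoid : ∀ a, ((univ.filter fun τ : Fin k → Fin d => ¬ ∃ i, τ i ∈ D a).card : ℝ) =
      ((d : ℝ) - (D a).card) ^ k := by
    intro a
    have h1 : (univ.filter fun τ : Fin k → Fin d => ¬ ∃ i, τ i ∈ D a) =
        Fintype.piFinset fun _ : Fin k => (D a)ᶜ := by
      ext τ
      simp
    rw [h1, Fintype.card_piFinset]
    simp only [prod_const, card_univ, Fintype.card_fin, card_compl]
    rw [Nat.cast_pow, Nat.cast_sub]
    simpa using card_le_univ (D a)
  have hhit : ∀ a, min 1 ((k : ℝ) * ((D a).card / d)) / 2 * (d : ℝ) ^ k ≤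
      ((univ.filter fun τ : Fin k → Fin d => ∃ i, τ i ∈ D a).card : ℝ) := by
    intro a
    have h1 := Finset.card_filter_add_card_filter_not (s := (univ : Finset (Fin k → Fin d)))
      (p := fun τ => ∃ i, τ i ∈ D a)
    have h2 : ((univ.filter fun τ : Fin k → Fin d => ∃ i, τ i ∈ D a).card : ℝ) =
        (d : ℝ) ^ k - ((d : ℝ) - (D a).card) ^ k := by
      rw [← havoid a]
      have h3 : ((univ : Finset (Fin k → Fin d)).card : ℝ) = (d : ℝ) ^ k := by
        simp
      rw [← h3, ← h1]
      push_cast
      ring
    rw [h2]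
    have hq1 : ((D a).card : ℝ) / d ≤ 1 := by
      rw [div_le_one hd0]
      have := card_le_univ (D a)
      rw [Fintype.card_fin] at this
      exact_mod_cast this
    have h4 := one_sub_pow_ge k ((D a).card / d) (by positivity) hq1
    have h5 : (d : ℝ) ^ k - ((d : ℝ) - (D a).card) ^ k =
        (1 - (1 - (D a).card / d) ^ k) * (d : ℝ) ^ k := by
      have : (1 - ((D a).card : ℝ) / d) ^ k * (d : ℝ) ^ k = ((d : ℝ) - (D a).card) ^ k := by
        rw [← mul_pow]
        congr 1
        field_simp
      rw [sub_mul, one_mul, this]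
    rw [h5]
    exact mul_le_mul_of_nonneg_right h4 (by positivity)
  have hsum : ∑ a, ((univ.filter fun τ : Fin k → Fin d => ∃ i, τ i ∈ D a).card : ℝ) ≤
      B * (d : ℝ) ^ k := by
    have h1 : ∑ a, ((univ.filter fun τ : Fin k → Fin d => ∃ i, τ i ∈ D a).card : ℝ) =
        ∑ τ : Fin k → Fin d, ((univ.filter fun a => ∃ i, τ i ∈ D a).card : ℝ) := by
      simp only [card_filter]
      push_cast
      rw [sum_comm]
    rw [h1]
    calc ∑ τ : Fin k → Fin d, ((univ.filter fun a => ∃ i, τ i ∈ D a).card : ℝ)
        ≤ ∑ _τ : Fin k → Fin d, B := sum_le_sum fun τ _ => h τ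
      _ = B * (d : ℝ) ^ k := by
        rw [sum_const, card_univ, nsmul_eq_mul]
        simp
        ring
  have hdk : (0 : ℝ) < (d : ℝ) ^ k := by positivity
  have h6 : (∑ a, min 1 ((k : ℝ) * ((D a).card / d)) / 2) * (d : ℝ) ^ k ≤ B * (d : ℝ) ^ k := by
    rw [sum_mul]
    exact (sum_le_sum fun a _ => hhit a).trans hsum
  have h7 := le_of_mul_le_mul_right h6 hdk
  rw [← sum_div] at h7
  linarith

open Classical in
/-- the set of inputs reaching an instruction -/
noncomputable def Prog.dep (p : Prog d k N) (s : Fin N) : Finset (Fin d) :=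
  univ.filter fun j => p.Reach j s

open Classical in
/-- the set of inputs reaching an operand -/
noncomputable def Prog.depSrc (p : Prog d k N) (z : Fin d ⊕ Fin N) : Finset (Fin d) :=
  univ.filter fun j => p.ReachSrc j z

/-- heavy instructions depend on at least `d / k` inputs -/
def Prog.Heavy (p : Prog d k N) (s : Fin N) : Prop := d ≤ k * (p.dep s).card

theorem Prog.heavy_closed (p : Prog d k N) (s : Fin N) (b : Bool) (n : Fin N)
    (h : p.src s b = Sum.inr n) (hn : p.Heavy n) : p.Heavy s := by
  unfold Prog.Heavy at hn ⊢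
  refine hn.trans (Nat.mul_le_mul_left _ (card_le_card ?_))
  intro j hj
  simp only [Prog.dep, mem_filter, mem_univ, true_and] at hj ⊢
  exact Prog.Reach.instr s b n h hj

theorem Prog.reach_of_src (p : Prog d k N) (s : Fin N) (b : Bool) (j : Fin d)
    (h : p.ReachSrc j (p.src s b)) : p.Reach j s := by
  rcases hsrc : p.src s b with j' | n
  · rw [hsrc] at h
    have : j = j' := h
    subst this
    exact Prog.Reach.input s b hsrc
  · rw [hsrc] at h
    exact Prog.Reach.instr s b n hsrc h

theorem Prog.light_card (p : Prog d k N) (hkd : k < d) (z : Fin d ⊕ Fin N)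
    (hz : LightSrc p.Heavy z) : k * (p.depSrc z).card < d := by
  rcases z with j | n
  · have : p.depSrc (Sum.inl j) = {j} := by
      ext j'
      simp only [Prog.depSrc, mem_filter, mem_univ, true_and, mem_singleton]
      exact Iff.rfl
    rw [this]
    simpa using hkd
  · have h1 : ¬ p.Heavy n := hz
    unfold Prog.Heavy at h1
    push Not at h1
    exact h1

open Classical in
/-- The number of instructions that depend on a set `T` of inputs. -/
noncomputable def Prog.active (p : Prog d k N) (T : Finset (Fin d)) : ℕ :=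
  (univ.filter fun s => ∃ j ∈ T, p.Reach j s).card

theorem Prog.counting (p : Prog d k N) (L : ℝ) (hk : 1 ≤ k) (hkd : k < d)
    (hact : ∀ T : Finset (Fin d), T.card ≤ k → (p.active T : ℝ) ≤ 2 * k * L) :
    ((p.frontier p.Heavy).card : ℝ) ≤ 8 * k * L ∧
    ∑ e ∈ p.frontier p.Heavy, ((p.depSrc (p.src e.1 e.2)).card : ℝ) ≤ 8 * d * L := by
  classical
  have hd0 : (0 : ℝ) < d := by
    have : 0 < d := by omega
    exact_mod_cast this
  have hk0 : (0 : ℝ) < k := by exact_mod_cast hk
  have hτ : ∀ τ : Fin k → Fin d, ((univ.filter fun s => ∃ i, p.Reach (τ i) s).card : ℝ) ≤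
      2 * k * L := by
    intro τ
    have h1 := hact (univ.image τ) ((card_image_le).trans (by simp))
    have h2 : (univ.filter fun s => ∃ j ∈ univ.image τ, p.Reach j s) =
        univ.filter fun s => ∃ i, p.Reach (τ i) s := by
      ext s
      simp
    unfold Prog.active at h1
    rw [h2] at h1
    exact h1
  constructor
  · have h1 := hit_sum (k := k) (by omega) (fun s => p.dep s) (2 * k * L) (by
      intro τ
      have h2 : (univ.filter fun s => ∃ i, τ i ∈ p.dep s) =
          univ.filter fun s => ∃ i, p.Reach (τ i) s := by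
        ext s
        simp [Prog.dep]
      rw [h2]
      exact hτ τ)
    have h3 : ((univ.filter fun s => p.Heavy s).card : ℝ) ≤
        ∑ s, min 1 ((k : ℝ) * ((p.dep s).card / d)) := by
      rw [card_filter]
      push_cast
      apply sum_le_sum
      intro s _
      split_ifs with hs
      · rw [le_min_iff]
        refine ⟨le_rfl, ?_⟩
        rw [← mul_div_assoc, le_div_iff₀ hd0, one_mul]
        unfold Prog.Heavy at hs
        exact_mod_cast hs
      · apply le_min (by norm_num)
        positivity
    have h4 : (p.frontier p.Heavy).card ≤ 2 * (univ.filter fun s => p.Heavy s).card := by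
      have h5 : p.frontier p.Heavy ⊆ (univ.filter fun s => p.Heavy s) ×ˢ (univ : Finset Bool) := by
        intro e he
        simp only [Prog.frontier, mem_filter, mem_univ, true_and] at he
        simp only [mem_product, mem_filter, mem_univ, true_and, and_true]
        exact he.1
      refine (card_le_card h5).trans ?_
      rw [card_product]
      simp
      omega
    have h5 : ((p.frontier p.Heavy).card : ℝ) ≤ 2 * ((univ.filter fun s => p.Heavy s).card : ℝ) := by
      exact_mod_cast h4
    linarith
  · have h1 := hit_sum (k := k) (α := Fin N × Bool) (by omega)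
      (fun e => if e ∈ p.frontier p.Heavy then p.depSrc (p.src e.1 e.2) else ∅) (4 * k * L) (by
      intro τ
      have h2 : (univ.filter fun e : Fin N × Bool => ∃ i, τ i ∈
          (if e ∈ p.frontier p.Heavy then p.depSrc (p.src e.1 e.2) else ∅)) ⊆
          (univ.filter fun s => ∃ i, p.Reach (τ i) s) ×ˢ (univ : Finset Bool) := by
        intro e he
        simp only [mem_filter, mem_univ, true_and] at he
        obtain ⟨i, hi⟩ := he
        simp only [mem_product, mem_filter, mem_univ, true_and, and_true]
        refine ⟨i, ?_⟩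
        split_ifs at hi with h3
        · simp only [Prog.depSrc, mem_filter, mem_univ, true_and] at hi
          exact p.reach_of_src e.1 e.2 _ hi
        · simp at hi
      have h3 := card_le_card h2
      rw [card_product] at h3
      simp only [card_univ, Fintype.card_bool] at h3
      have h4 : ((univ.filter fun e : Fin N × Bool => ∃ i, τ i ∈
          (if e ∈ p.frontier p.Heavy then p.depSrc (p.src e.1 e.2) else ∅)).card : ℝ) ≤
          ((univ.filter fun s => ∃ i, p.Reach (τ i) s).card : ℝ) * 2 := by
        exact_mod_cast h3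
      have h5 := hτ τ
      linarith)
    have h2 : ∑ e ∈ p.frontier p.Heavy, ((k : ℝ) * ((p.depSrc (p.src e.1 e.2)).card / d)) ≤
        ∑ e : Fin N × Bool, min 1 ((k : ℝ) * (((if e ∈ p.frontier p.Heavy then
          p.depSrc (p.src e.1 e.2) else ∅ : Finset (Fin d)).card : ℝ) / d)) := by
      rw [← sum_filter_add_sum_filter_not univ (fun e => e ∈ p.frontier p.Heavy)]
      have h3 : ∑ e ∈ univ.filter (fun e : Fin N × Bool => e ∈ p.frontier p.Heavy),
          min 1 ((k : ℝ) * (((if e ∈ p.frontier p.Heavy then
          p.depSrc (p.src e.1 e.2) else ∅ : Finset (Fin d)).card : ℝ) / d)) =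
          ∑ e ∈ p.frontier p.Heavy, ((k : ℝ) * ((p.depSrc (p.src e.1 e.2)).card / d)) := by
        have : univ.filter (fun e : Fin N × Bool => e ∈ p.frontier p.Heavy) =
            p.frontier p.Heavy := by
          ext e
          simp
        rw [this]
        apply sum_congr rfl
        intro e he
        rw [if_pos he]
        apply min_eq_right
        have hl : LightSrc p.Heavy (p.src e.1 e.2) := by
          simp only [Prog.frontier, mem_filter, mem_univ, true_and] at he
          exact he.2
        have h4 := p.light_card hkd _ hl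
        rw [← mul_div_assoc, div_le_one hd0]
        exact_mod_cast h4.le
      rw [h3]
      have h4 : 0 ≤ ∑ e ∈ univ.filter (fun e : Fin N × Bool => ¬ e ∈ p.frontier p.Heavy),
          min 1 ((k : ℝ) * (((if e ∈ p.frontier p.Heavy then
          p.depSrc (p.src e.1 e.2) else ∅ : Finset (Fin d)).card : ℝ) / d)) := by
        apply sum_nonneg
        intro e _
        apply le_min (by norm_num)
        positivity
      linarith
    have h3 : ∑ e ∈ p.frontier p.Heavy, ((k : ℝ) * ((p.depSrc (p.src e.1 e.2)).card / d)) =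
        (k / d) * ∑ e ∈ p.frontier p.Heavy, ((p.depSrc (p.src e.1 e.2)).card : ℝ) := by
      rw [mul_sum]
      apply sum_congr rfl
      intro e _
      ring
    rw [h3] at h2
    have h4 : (k / d : ℝ) * ∑ e ∈ p.frontier p.Heavy, ((p.depSrc (p.src e.1 e.2)).card : ℝ) ≤
        (k / d) * (8 * d * L) := by
      refine h2.trans (h1.trans (le_of_eq ?_))
      field_simp
      ring
    exact le_of_mul_le_mul_left h4 (by positivity)

end Pool.Agent.FJLB
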