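import Mathlib

set_option autoImplicit false

/-!
Linear straight-line programs with `d` inputs, `N` instructions, `k` outputs; frontier
decomposition with respect to an upward closed set of heavy instructions.
-/

namespace Pool.Agent.FJLB

open Finset

/-- A linear straight-line program: instruction `s` forms
`coef s false * X + coef s true * Y`, where `X`, `Y` are the operands `src s false`,
`src s true`, each an input (`Sum.inl j`) or the value of an earlier instruction
(`Sum.inr n`, `n < s`). -/
structure Prog (d k N : ℕ) where
  /-- coefficients of the two products -/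
  coef : Fin N → Bool → ℝ
  /-- operands of the two products -/
  src : Fin N → Bool → Fin d ⊕ Fin N
  /-- operands are computed earlier -/
  src_lt : ∀ s b n, src s b = Sum.inr n → n < s
  /-- outputs -/
  out : Fin k → Fin d ⊕ Fin N

variable {d k N : ℕ}

/-- `v` lists the values of the instructions on the input `x`. -/
def Prog.IsRun (p : Prog d k N) (x : Fin d → ℝ) (v : Fin N → ℝ) : Prop :=
  ∀ s, v s = ∑ b : Bool, p.coef s b * Sum.elim x v (p.src s b)

theorem Prog.exists_run (p : Prog d k N) (x : Fin d → ℝ) : ∃ v, p.IsRun x v := by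
  have h : ∀ n : ℕ, n ≤ N → ∃ v : Fin N → ℝ, ∀ s : Fin N, (s : ℕ) < n →
      v s = ∑ b : Bool, p.coef s b * Sum.elim x v (p.src s b) := by
    intro n
    induction n with
    | zero => exact fun _ => ⟨fun _ => 0, fun s hs => absurd hs (Nat.not_lt_zero _)⟩
    | succ n ih =>
      intro hn
      obtain ⟨v, hv⟩ := ih (Nat.le_of_succ_le hn)
      have hnN : n < N := hn
      refine ⟨Function.update v ⟨n, hnN⟩
        (∑ b : Bool, p.coef ⟨n, hnN⟩ b * Sum.elim x v (p.src ⟨n, hnN⟩ b)), ?_⟩
      have key : ∀ s : Fin N, (s : ℕ) < n + 1 → ∀ b, Sum.elim x (Function.update v ⟨n, hnN⟩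
        (∑ b : Bool, p.coef ⟨n, hnN⟩ b * Sum.elim x v (p.src ⟨n, hnN⟩ b))) (p.src s b) =
          Sum.elim x v (p.src s b) := by
        intro s hs b
        rcases hsrc : p.src s b with j | m
        · rfl
        · have hm := p.src_lt s b m hsrc
          simp only [Sum.elim_inr]
          rw [Function.update_of_ne]
          intro h
          rw [h] at hm
          have : (n : ℕ) < s := hm
          omega
      intro s hs
      simp_rw [key s hs]
      by_cases hsn : s = ⟨n, hnN⟩
      · subst hsn
        simp
      · rw [Function.update_of_ne hsn]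
        apply hv
        have : (s : ℕ) ≠ n := fun h => hsn (Fin.ext h)
        omega
  obtain ⟨v, hv⟩ := h N le_rfl
  exact ⟨v, fun s => hv s s.2⟩

theorem Prog.run_unique (p : Prog d k N) (x : Fin d → ℝ) {v w : Fin N → ℝ}
    (hv : p.IsRun x v) (hw : p.IsRun x w) : v = w := by
  have h : ∀ n : ℕ, ∀ s : Fin N, (s : ℕ) = n → v s = w s := by
    intro n
    induction n using Nat.strong_induction_on with
    | _ n ih =>
      intro s hs
      rw [hv s, hw s]
      apply sum_congr rfl
      intro b _
      congr 1
      rcases hsrc : p.src s b with j | m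
      · rfl
      · have hm := p.src_lt s b m hsrc
        exact ih m (by rw [← hs]; exact hm) m rfl
  funext s
  exact h s s rfl

/-- The values of the instructions on the input `x`. -/
noncomputable def Prog.val (p : Prog d k N) (x : Fin d → ℝ) : Fin N → ℝ :=
  Classical.choose (p.exists_run x)

theorem Prog.val_isRun (p : Prog d k N) (x : Fin d → ℝ) : p.IsRun x (p.val x) :=
  Classical.choose_spec (p.exists_run x)

theorem Prog.val_eq (p : Prog d k N) (x : Fin d → ℝ) (s : Fin N) :
    p.val x s = ∑ b : Bool, p.coef s b * Sum.elim x (p.val x) (p.src s b) :=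
  p.val_isRun x s

theorem Prog.val_unique (p : Prog d k N) (x : Fin d → ℝ) {v : Fin N → ℝ} (hv : p.IsRun x v) :
    v = p.val x := p.run_unique x hv (p.val_isRun x)

/-- The program with the coefficient of the product `b` of instruction `s` replaced by `0`. -/
def Prog.kill (p : Prog d k N) (s : Fin N) (b : Bool) : Prog d k N :=
  { p with coef := fun s' b' => if s' = s ∧ b' = b then 0 else p.coef s' b' }

/-- The program with all coefficients multiplied by factors. -/
def Prog.scale (p : Prog d k N) (lam : Fin N → Bool → ℝ) : Prog d k N :=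
  { p with coef := fun s b => lam s b * p.coef s b }

/-- `p.Reach j s`: instruction `s` depends on the input `j`. -/
inductive Prog.Reach (p : Prog d k N) (j : Fin d) : Fin N → Prop
  | input (s : Fin N) (b : Bool) (h : p.src s b = Sum.inl j) : Prog.Reach p j s
  | instr (s : Fin N) (b : Bool) (n : Fin N) (h : p.src s b = Sum.inr n)
      (hn : Prog.Reach p j n) : Prog.Reach p j s

/-- The input `j` reaches the operand `z`. -/
def Prog.ReachSrc (p : Prog d k N) (j : Fin d) : Fin d ⊕ Fin N → Prop
  | Sum.inl j' => j = j'
  | Sum.inr n => p.Reach j n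

theorem Prog.val_eq_zero (p : Prog d k N) (j : Fin d) (s : Fin N) (hs : ¬ p.Reach j s) :
    p.val (Pi.single j 1) s = 0 := by
  have h : ∀ n : ℕ, ∀ s : Fin N, (s : ℕ) = n → ¬ p.Reach j s → p.val (Pi.single j 1) s = 0 := by
    intro n
    induction n using Nat.strong_induction_on with
    | _ n ih =>
      intro s hs hr
      rw [p.val_eq]
      apply sum_eq_zero
      intro b _
      rcases hsrc : p.src s b with j' | m
      · have : j' ≠ j := by
          rintro rfl
          exact hr (Prog.Reach.input s b hsrc)
        simp [this]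
      · have hm := p.src_lt s b m hsrc
        have hr' : ¬ p.Reach j m := fun h => hr (Prog.Reach.instr s b m hsrc h)
        simp only [Sum.elim_inr]
        rw [ih m (by rw [← hs]; exact hm) m rfl hr', mul_zero]
  exact h s s rfl hs

theorem Prog.src_eq_zero (p : Prog d k N) (j : Fin d) (z : Fin d ⊕ Fin N)
    (hz : ¬ p.ReachSrc j z) : Sum.elim (Pi.single j 1) (p.val (Pi.single j 1)) z = 0 := by
  rcases z with j' | n
  · have : j' ≠ j := fun h => hz h.symm
    simp [this]
  · exact p.val_eq_zero j n hz

section frontier

variable (p : Prog d k N) (Hv : Fin N → Prop)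

/-- An operand that is not heavy. -/
def LightSrc : Fin d ⊕ Fin N → Prop
  | Sum.inl _ => True
  | Sum.inr n => ¬ Hv n

open Classical in
/-- Products of heavy instructions with a light operand. -/
noncomputable def Prog.frontier : Finset (Fin N × Bool) :=
  univ.filter fun e => Hv e.1 ∧ LightSrc (d := d) Hv (p.src e.1 e.2)

open Classical in
/-- factors: `μ` on the frontier, `1` elsewhere -/
noncomputable def Prog.lam (μ : Fin N × Bool → ℝ) : Fin N → Bool → ℝ :=
  fun s b => if (s, b) ∈ p.frontier Hv then μ (s, b) else 1

theorem Prog.light_val (hcl : ∀ s b n, p.src s b = Sum.inr n → Hv n → Hv s)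
    (μ : Fin N × Bool → ℝ) (x : Fin d → ℝ) (s : Fin N) (hs : ¬ Hv s) :
    (p.scale (p.lam Hv μ)).val x s = p.val x s := by
  classical
  have h : ∀ n : ℕ, ∀ s : Fin N, (s : ℕ) = n → ¬ Hv s →
      (p.scale (p.lam Hv μ)).val x s = p.val x s := by
    intro n
    induction n using Nat.strong_induction_on with
    | _ n ih =>
      intro s hs hr
      rw [Prog.val_eq, p.val_eq]
      apply sum_congr rfl
      intro b _
      have h1 : (p.scale (p.lam Hv μ)).coef s b = p.coef s b := by
        have : (s, b) ∉ p.frontier Hv := by
          simp only [Prog.frontier, mem_filter, mem_univ, true_and, not_and]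
          intro h
          exact absurd h hr
        simp only [Prog.scale, Prog.lam]
        rw [if_neg this, one_mul]
      have h2 : (p.scale (p.lam Hv μ)).src s b = p.src s b := rfl
      rw [h1, h2]
      congr 1
      rcases hsrc : p.src s b with j' | m
      · rfl
      · have hm := p.src_lt s b m hsrc
        exact ih m (by rw [← hs]; exact hm) m rfl (fun h => hr (hcl s b m hsrc h))
  exact h s s rfl hs

theorem Prog.light_src (hcl : ∀ s b n, p.src s b = Sum.inr n → Hv n → Hv s)
    (μ : Fin N × Bool → ℝ) (x : Fin d → ℝ) (z : Fin d ⊕ Fin N) (hz : LightSrc Hv z) :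
    Sum.elim x ((p.scale (p.lam Hv μ)).val x) z = Sum.elim x (p.val x) z := by
  rcases z with j | n
  · rfl
  · exact p.light_val Hv hcl μ x n hz

theorem Prog.heavy_val (hcl : ∀ s b n, p.src s b = Sum.inr n → Hv n → Hv s) (s : Fin N)
    (hs : Hv s) : ∃ c : Fin N × Bool → ℝ, ∀ (μ : Fin N × Bool → ℝ) (x : Fin d → ℝ),
      (p.scale (p.lam Hv μ)).val x s =
        ∑ e ∈ p.frontier Hv, μ e * (c e * Sum.elim x (p.val x) (p.src e.1 e.2)) := by
  classical
  have h : ∀ n : ℕ, ∀ s : Fin N, (s : ℕ) = n → Hv s →
      ∃ c : Fin N × Bool → ℝ, ∀ (μ : Fin N × Bool → ℝ) (x : Fin d → ℝ),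
      (p.scale (p.lam Hv μ)).val x s =
        ∑ e ∈ p.frontier Hv, μ e * (c e * Sum.elim x (p.val x) (p.src e.1 e.2)) := by
    intro n
    induction n using Nat.strong_induction_on with
    | _ n ih =>
      intro s hs hr
      have key : ∀ b : Bool, ∃ c : Fin N × Bool → ℝ, ∀ (μ : Fin N × Bool → ℝ) (x : Fin d → ℝ),
          p.lam Hv μ s b * p.coef s b *
            Sum.elim x ((p.scale (p.lam Hv μ)).val x) (p.src s b) =
          ∑ e ∈ p.frontier Hv, μ e * (c e * Sum.elim x (p.val x) (p.src e.1 e.2)) := by
        intro b
        by_cases hF : (s, b) ∈ p.frontier Hv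
        · refine ⟨fun e => if e = (s, b) then p.coef s b else 0, ?_⟩
          intro μ x
          have hl : LightSrc Hv (p.src s b) := by
            simp only [Prog.frontier, mem_filter, mem_univ, true_and] at hF
            exact hF.2
          rw [p.light_src Hv hcl μ x _ hl]
          have h1 : p.lam Hv μ s b = μ (s, b) := by
            simp only [Prog.lam]
            rw [if_pos hF]
          rw [h1, sum_eq_single_of_mem (s, b) hF]
          · simp only [if_true]
            ring
          · intro e _ he
            simp only [if_neg he]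
            ring
        · have hF' : ∃ m, p.src s b = Sum.inr m ∧ Hv m := by
            rcases hsrc : p.src s b with j' | m
            · exfalso
              apply hF
              simp only [Prog.frontier, mem_filter, mem_univ, true_and]
              refine ⟨hr, ?_⟩
              rw [hsrc]
              trivial
            · refine ⟨m, rfl, ?_⟩
              by_contra hm
              apply hF
              simp only [Prog.frontier, mem_filter, mem_univ, true_and]
              refine ⟨hr, ?_⟩
              rw [hsrc]
              exact hm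
          obtain ⟨m, hm, hHm⟩ := hF'
          have hlt := p.src_lt s b m hm
          obtain ⟨c, hc⟩ := ih m (by rw [← hs]; exact hlt) m rfl hHm
          refine ⟨fun e => p.coef s b * c e, ?_⟩
          intro μ x
          have h1 : p.lam Hv μ s b = 1 := by
            simp only [Prog.lam]
            rw [if_neg hF]
          rw [h1, hm, Sum.elim_inr, hc μ x, mul_sum]
          apply sum_congr rfl
          intro e _
          ring
      choose c hc using key
      refine ⟨fun e => ∑ b, c b e, ?_⟩
      intro μ x
      rw [Prog.val_eq]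
      have h2 : ∀ b, (p.scale (p.lam Hv μ)).coef s b *
          Sum.elim x ((p.scale (p.lam Hv μ)).val x) ((p.scale (p.lam Hv μ)).src s b) =
          ∑ e ∈ p.frontier Hv, μ e * (c b e * Sum.elim x (p.val x) (p.src e.1 e.2)) :=
        fun b => hc b μ x
      simp_rw [h2]
      rw [sum_comm]
      apply sum_congr rfl
      intro e _
      rw [← mul_sum, sum_mul]
  exact h s s rfl hs

theorem Prog.lam_one : p.scale (p.lam Hv fun _ => 1) = p := by
  classical
  unfold Prog.scale Prog.lam
  cases p
  congr 1
  funext s b
  simp

theorem Prog.lam_kill (e : Fin N × Bool) (he : e ∈ p.frontier Hv) :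
    p.scale (p.lam Hv fun e' => if e' = e then 0 else 1) = p.kill e.1 e.2 := by
  classical
  have h : ∀ s b, p.lam Hv (fun e' => if e' = e then 0 else 1) s b * p.coef s b =
      if s = e.1 ∧ b = e.2 then 0 else p.coef s b := by
    intro s b
    unfold Prog.lam
    by_cases hsb : s = e.1 ∧ b = e.2
    · have : (s, b) = e := Prod.ext hsb.1 hsb.2
      rw [if_pos hsb, this, if_pos he]
      simp
    · have : (s, b) ≠ e := fun h => hsb ⟨congrArg Prod.fst h, congrArg Prod.snd h⟩
      rw [if_neg hsb]
      split_ifs <;> simp [this]
  unfold Prog.scale Prog.kill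
  congr 1
  funext s b
  exact h s b

/-- **Frontier decomposition.** There are vectors `W e` such that on every input the heavy
outputs are `∑ W e i * (operand of e)`, and killing the product `e` changes the outputs exactly by
`W e i * (operand of e)`. -/
theorem Prog.decomposition (hcl : ∀ s b n, p.src s b = Sum.inr n → Hv n → Hv s) :
    ∃ W : Fin N × Bool → Fin k → ℝ,
      (∀ i, LightSrc Hv (p.out i) → ∀ e, W e i = 0) ∧
      (∀ i, ¬ LightSrc Hv (p.out i) → ∀ x : Fin d → ℝ,
        Sum.elim x (p.val x) (p.out i) =
          ∑ e ∈ p.frontier Hv, W e i * Sum.elim x (p.val x) (p.src e.1 e.2)) ∧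
      (∀ e ∈ p.frontier Hv, ∀ (i : Fin k) (x : Fin d → ℝ),
        Sum.elim x (p.val x) (p.out i) - Sum.elim x ((p.kill e.1 e.2).val x) (p.out i) =
          W e i * Sum.elim x (p.val x) (p.src e.1 e.2)) := by
  classical
  have hex : ∀ i : Fin k, ∃ w : Fin N × Bool → ℝ,
      (LightSrc Hv (p.out i) → ∀ e, w e = 0) ∧
      (¬ LightSrc Hv (p.out i) → ∀ (μ : Fin N × Bool → ℝ) (x : Fin d → ℝ),
        Sum.elim x ((p.scale (p.lam Hv μ)).val x) (p.out i) =
          ∑ e ∈ p.frontier Hv, μ e * (w e * Sum.elim x (p.val x) (p.src e.1 e.2))) := by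
    intro i
    by_cases hl : LightSrc Hv (p.out i)
    · exact ⟨fun _ => 0, fun _ _ => rfl, fun h => absurd hl h⟩
    · rcases hout : p.out i with j | n
      · exfalso
        apply hl
        rw [hout]
        trivial
      · rw [hout] at hl
        have hn : Hv n := by
          by_contra h
          exact hl h
        obtain ⟨c, hc⟩ := p.heavy_val Hv hcl n hn
        exact ⟨c, fun h => absurd h hl, fun _ μ x => hc μ x⟩
  choose w hw1 hw2 using hex
  refine ⟨fun e i => w i e, fun i hi e => hw1 i hi e, ?_, ?_⟩
  · intro i hi x
    have := hw2 i hi (fun _ => 1) x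
    rw [p.lam_one Hv] at this
    simpa using this
  · intro e he i x
    by_cases hi : LightSrc Hv (p.out i)
    · have h1 := p.light_src Hv hcl (fun e' => if e' = e then 0 else 1) x _ hi
      rw [p.lam_kill Hv e he] at h1
      simp only [h1, hw1 i hi e]
      ring
    · have h1 := hw2 i hi (fun _ => 1) x
      rw [p.lam_one Hv] at h1
      have h2 := hw2 i hi (fun e' => if e' = e then 0 else 1) x
      rw [p.lam_kill Hv e he] at h2
      rw [h1, h2, ← sum_sub_distrib, sum_eq_single_of_mem e he]
      · simp
      · intro e' _ hne
        rw [if_neg hne]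
        ring

end frontier

end Pool.Agent.FJLB
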